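import Pool.Agent.Lib.MP_ab3705_an.GD.Fin

set_option autoImplicit false

namespace Pool.Agent.Lib.MP_ab3705_an.Old.IsoClassification

open Pool.Agent.Lib.MP_ab3705_an.GD

/-- A separable infinite-dimensional Banach space is isomorphic to a space as asked for in Q1
exactly when it does not contain `ℓ_∞^n` uniformly, and then it is almost isometric to one. -/
theorem result (X : Type) [NormedAddCommGroup X] [NormedSpace ℝ X] [CompleteSpace X]
    [TopologicalSpace.SeparableSpace X] (hX : ¬ FiniteDimensional ℝ X) :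
    List.TFAE
      [∃ (Y : Type) (_ : NormedAddCommGroup Y) (_ : NormedSpace ℝ Y),
          Nonempty (X ≃L[ℝ] Y) ∧ ¬ IsLp Y ∧ ¬ IsGurarii Y ∧ (GdIn Pinf Y ∨ GdIn Bn Y),
        ¬ HasLinf X,
        ∀ ε : ℝ, 0 < ε → ∃ (Y : Type) (_ : NormedAddCommGroup Y) (_ : NormedSpace ℝ Y)
          (e : X ≃L[ℝ] Y), (∀ x, ‖e x‖ ≤ ‖x‖ ∧ ‖x‖ ≤ (1 + ε) * ‖e x‖) ∧
            ¬ IsLp Y ∧ ¬ IsGurarii Y ∧ GdIn Pinf Y ∧ GdIn Bn Y ∧
            ∀ y : Y, TotallyBounded (Set.range fun U : Y ≃ₗᵢ[ℝ] Y => U y)] := by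
  have hc : ∀ (Y : Type) [NormedAddCommGroup Y] [NormedSpace ℝ Y], (X ≃L[ℝ] Y) →
      CompleteSpace Y ∧ TopologicalSpace.SeparableSpace Y ∧ ¬ FiniteDimensional ℝ Y := by
    intro Y _ _ e
    refine ⟨?_, e.surjective.denseRange.separableSpace e.continuous, fun h => hX ?_⟩
    · exact (completeSpace_congr (e := e.toLinearEquiv.toEquiv) e.isUniformEmbedding).1
        inferInstance
    · exact e.symm.toLinearEquiv.finiteDimensional
  tfae_have 1 → 2 := by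
    rintro ⟨Y, _, _, ⟨e⟩, -, hG, hd⟩ hL
    obtain ⟨_, _, h3⟩ := hc Y e
    exact hG (only Y h3 (hL.of_equiv e) hd)
  tfae_have 2 → 3 := by
    intro hL ε hε
    obtain ⟨Y, _, _, e, he, hA⟩ := ren X hX hL ε hε
    obtain ⟨_, _, h3⟩ := hc Y e
    have hP := crit Y hA
    exact ⟨Y, _, _, e, he, fun h => lp Y h hA, fun h => hL (h.hasLinf.of_equiv e.symm),
      hP.mono fun _ h => h.1, hP.mono fun _ h => h.1.1, hA.orbit⟩
  tfae_have 3 → 1 := by
    intro h
    obtain ⟨Y, _, _, e, -, h1, h2, h3, -⟩ := h 1 one_pos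
    exact ⟨Y, _, _, ⟨e⟩, h1, h2, Or.inl h3⟩
  tfae_finish

end Pool.Agent.Lib.MP_ab3705_an.Old.IsoClassification
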